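import Pool.Agent.W781.LW.Stm

/-!
# LW-OPT: the optimal shift
-/

open Matrix

namespace Pool.Agent.W359.LWOPT

open Pool.Agent.W781.LW

variable {n : ℕ}

/-- quadratic form -/
noncomputable def qf (P : Matrix (Fin n) (Fin n) ℂ) (x : Fin n → ℂ) : ℝ :=
  (star x ⬝ᵥ (P *ᵥ x)).re

/-- the convex set of density type matrices of trace two -/
def PP (n : ℕ) : Set (Matrix (Fin n) (Fin n) ℂ) :=
  {P | P.IsHermitian ∧ (∀ x, 0 ≤ qf P x) ∧ (∀ x, qf P x ≤ qf 1 x) ∧ trace P = 2}

theorem qf_add (P Q : Matrix (Fin n) (Fin n) ℂ) (x : Fin n → ℂ) :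
    qf (P + Q) x = qf P x + qf Q x := by
  simp [qf, add_mulVec]

theorem qf_smul (t : ℝ) (P : Matrix (Fin n) (Fin n) ℂ) (x : Fin n → ℂ) :
    qf ((t : ℂ) • P) x = t * qf P x := by
  simp [qf, smul_mulVec]

theorem qf_conj (U A : Matrix (Fin n) (Fin n) ℂ) (x : Fin n → ℂ) :
    qf (U * A * Uᴴ) x = qf A (Uᴴ *ᵥ x) := by
  simp only [qf]
  rw [← mulVec_mulVec, ← mulVec_mulVec, dotProduct_mulVec, star_mulVec,
    conjTranspose_conjTranspose]

theorem qf_diag (s : Fin n → ℝ) (y : Fin n → ℂ) :
    qf (diagonal fun i => (s i : ℂ)) y = ∑ i, s i * ‖y i‖ ^ 2 := by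
  simp only [qf, dotProduct, mulVec_diagonal, Complex.re_sum]
  refine Finset.sum_congr rfl fun i _ => ?_
  rw [Pi.star_apply]
  have : star (y i) * ((s i : ℂ) * y i) = ((s i * ‖y i‖ ^ 2 : ℝ) : ℂ) := by
    have h := Complex.conj_mul' (y i)
    rw [Complex.star_def]
    push_cast
    linear_combination (s i : ℂ) * h
  rw [this, Complex.ofReal_re]

theorem qf_one (y : Fin n → ℂ) : qf 1 y = ∑ i, ‖y i‖ ^ 2 := by
  have h := qf_diag (n := n) (fun _ => 1) y
  simpa using h

theorem qf_one_conj {U : Matrix (Fin n) (Fin n) ℂ} (hU : U * Uᴴ = 1) (x : Fin n → ℂ) :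
    qf 1 (Uᴴ *ᵥ x) = qf 1 x := by
  rw [← qf_conj, mul_one, hU]

theorem diag_mem {U : Matrix (Fin n) (Fin n) ℂ} (hU1 : Uᴴ * U = 1) (hU2 : U * Uᴴ = 1)
    (s : Fin n → ℝ) (h0 : ∀ i, 0 ≤ s i) (h1 : ∀ i, s i ≤ 1) (h2 : ∑ i, s i = 2) :
    U * (diagonal fun i => (s i : ℂ)) * Uᴴ ∈ PP n := by
  refine ⟨?_, ?_, ?_, ?_⟩
  · have hd : (diagonal fun i => (s i : ℂ))ᴴ = diagonal fun i => (s i : ℂ) := by
      rw [diagonal_conjTranspose]
      congr 1
      ext i
      simp
    rw [IsHermitian, conjTranspose_mul, conjTranspose_mul, conjTranspose_conjTranspose, hd,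
      mul_assoc]
  · intro x
    rw [qf_conj, qf_diag]
    exact Finset.sum_nonneg fun i _ => mul_nonneg (h0 i) (by positivity)
  · intro x
    rw [qf_conj, qf_diag, ← qf_one_conj hU2, qf_one]
    exact Finset.sum_le_sum fun i _ => by
      have := mul_le_mul_of_nonneg_right (h1 i) (sq_nonneg ‖(Uᴴ *ᵥ x) i‖)
      simpa using this
  · rw [trace_mul_comm, ← mul_assoc, hU1, one_mul, trace_diagonal, ← Complex.ofReal_sum, h2]
    norm_num

theorem qf_single_add (P : Matrix (Fin n) (Fin n) ℂ) (hP : P.IsHermitian) (i j : Fin n) (c : ℂ) :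
    qf P (Pi.single i 1 + Pi.single j c) =
      (P i i).re + ‖c‖ ^ 2 * (P j j).re + 2 * (c * P i j).re := by
  have hji : P j i = star (P i j) := (hP.apply j i).symm
  simp only [qf, mulVec_add, star_add, add_dotProduct, dotProduct_add]
  rw [← Pi.single_star, ← Pi.single_star]
  simp only [single_dotProduct, mulVec_single, star_one, one_mul, Pi.smul_apply, col_apply,
    MulOpposite.smul_eq_mul_unop, MulOpposite.unop_op, mul_one, Complex.add_re]
  rw [hji]
  have e1 : (star c * (P j j * c)).re = ‖c‖ ^ 2 * (P j j).re := by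
    have h := Complex.conj_mul' c
    have : star c * (P j j * c) = ((‖c‖ ^ 2 : ℝ) : ℂ) * P j j := by
      rw [Complex.star_def]
      push_cast
      linear_combination (P j j) * h
    rw [this, Complex.re_ofReal_mul]
  have e2 : (star c * star (P i j)).re = (c * P i j).re := by
    rw [← star_mul', Complex.star_def, Complex.conj_re]
  rw [e1, e2, mul_comm (P i j) c]
  ring

theorem qf_single (P : Matrix (Fin n) (Fin n) ℂ) (i : Fin n) :
    qf P (Pi.single i 1) = (P i i).re := by
  simp only [qf]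
  rw [← Pi.single_star]
  simp [single_dotProduct]

theorem entry_le {P : Matrix (Fin n) (Fin n) ℂ} (hP : P ∈ PP n) (i j : Fin n) :
    ‖P i j‖ ≤ 2 := by
  obtain ⟨hH, h0, h1, -⟩ := hP
  have hd : ∀ i, (P i i).re ≤ 1 := by
    intro i
    have := h1 (Pi.single i 1)
    rw [qf_single, qf_single] at this
    simpa using this
  have key : ∀ c : ℂ, ‖c‖ = 1 → -1 ≤ (c * P i j).re := by
    intro c hc
    have := h0 (Pi.single i 1 + Pi.single j c)
    rw [qf_single_add P hH, hc] at this
    have h2 := hd i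
    have h3 := hd j
    linarith
  have k1 := key 1 (by simp)
  have k2 := key (-1) (by simp)
  have k3 := key Complex.I (by simp)
  have k4 := key (-Complex.I) (by simp)
  simp only [one_mul, neg_mul, Complex.neg_re, Complex.I_mul_re] at k1 k2 k3 k4
  have hre : |(P i j).re| ≤ 1 := abs_le.mpr ⟨by linarith, by linarith⟩
  have him : |(P i j).im| ≤ 1 := abs_le.mpr ⟨by linarith, by linarith⟩
  calc ‖P i j‖ ≤ |(P i j).re| + |(P i j).im| := Complex.norm_le_abs_re_add_abs_im _
    _ ≤ 2 := by linarith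

theorem cont_qf (x : Fin n → ℂ) : Continuous fun P : Matrix (Fin n) (Fin n) ℂ => qf P x := by
  unfold qf
  exact Complex.continuous_re.comp
    (Continuous.dotProduct continuous_const (Continuous.matrix_mulVec continuous_id
      continuous_const))

theorem isClosed_PP : IsClosed (PP n) := by
  have h1 : IsClosed {P : Matrix (Fin n) (Fin n) ℂ | P.IsHermitian} :=
    isClosed_eq (Continuous.matrix_conjTranspose continuous_id) continuous_id
  have h2 : IsClosed {P : Matrix (Fin n) (Fin n) ℂ | ∀ x, 0 ≤ qf P x} := by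
    simp only [Set.ofPred_forall]
    exact isClosed_iInter fun x => isClosed_le continuous_const (cont_qf x)
  have h3 : IsClosed {P : Matrix (Fin n) (Fin n) ℂ | ∀ x, qf P x ≤ qf 1 x} := by
    simp only [Set.ofPred_forall]
    exact isClosed_iInter fun x => isClosed_le (cont_qf x) continuous_const
  have h4 : IsClosed {P : Matrix (Fin n) (Fin n) ℂ | trace P = 2} :=
    isClosed_eq (Continuous.matrix_trace continuous_id) continuous_const
  exact (h1.inter (h2.inter (h3.inter h4)))

theorem isCompact_PP : IsCompact (PP n) := by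
  have hc : IsCompact (Set.pi Set.univ fun _ : Fin n =>
      (Set.pi Set.univ fun _ : Fin n => Metric.closedBall (0 : ℂ) 2)) :=
    isCompact_univ_pi fun _ => isCompact_univ_pi fun _ => isCompact_closedBall 0 2
  refine IsCompact.of_isClosed_subset (X := Matrix (Fin n) (Fin n) ℂ) hc isClosed_PP ?_
  intro P hP
  change P ∈ (Set.pi Set.univ fun _ : Fin n =>
      (Set.pi Set.univ fun _ : Fin n => Metric.closedBall (0 : ℂ) 2) : Set (Fin n → Fin n → ℂ))
  intro i _ j _
  rw [mem_closedBall_zero_iff]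
  exact entry_le hP i j

theorem nonempty_PP (hn : 2 ≤ n) : (PP n).Nonempty := by
  obtain ⟨m, rfl⟩ : ∃ m, n = m + 2 := ⟨n - 2, by omega⟩
  refine ⟨_, diag_mem (U := 1) (by simp) (by simp)
    (fun i => if (i : ℕ) < 2 then 1 else 0) ?_ ?_ ?_⟩
  · intro i; split_ifs <;> norm_num
  · intro i; split_ifs <;> norm_num
  · rw [Fin.sum_univ_succ, Fin.sum_univ_succ]
    have : ∀ i : Fin m, (if ((i.succ.succ : Fin (m + 2)) : ℕ) < 2 then (1 : ℝ) else 0) = 0 := by
      intro i
      rw [if_neg]
      simp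
    rw [Finset.sum_congr rfl fun i _ => this i]
    simp
    norm_num

theorem convex_PP {P Q : Matrix (Fin n) (Fin n) ℂ} (hP : P ∈ PP n) (hQ : Q ∈ PP n) {t : ℝ}
    (h0 : 0 ≤ t) (h1 : t ≤ 1) : Q + (t : ℂ) • (P - Q) ∈ PP n := by
  have e : Q + (t : ℂ) • (P - Q) = ((1 - t : ℝ) : ℂ) • Q + (t : ℂ) • P := by
    push_cast
    module
  rw [e]
  obtain ⟨hP1, hP2, hP3, hP4⟩ := hP
  obtain ⟨hQ1, hQ2, hQ3, hQ4⟩ := hQ
  refine ⟨?_, ?_, ?_, ?_⟩
  · rw [IsHermitian, conjTranspose_add, conjTranspose_smul, conjTranspose_smul, hP1.eq, hQ1.eq]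
    simp
  · intro x
    rw [qf_add, qf_smul, qf_smul]
    have := mul_nonneg h0 (hP2 x)
    have := mul_nonneg (sub_nonneg.mpr h1) (hQ2 x)
    linarith
  · intro x
    rw [qf_add, qf_smul, qf_smul]
    have := mul_le_mul_of_nonneg_left (hP3 x) h0
    have := mul_le_mul_of_nonneg_left (hQ3 x) (sub_nonneg.mpr h1)
    linarith
  · rw [trace_add, trace_smul, trace_smul, hP4, hQ4]
    push_cast
    simp only [smul_eq_mul]
    ring

/-- the functional to be maximised -/
noncomputable def psi (X P : Matrix (Fin n) (Fin n) ℂ) : ℝ :=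
  (trace (P * DD X)).re - ‖trace (P * X)‖ ^ 2

theorem cont_psi (X : Matrix (Fin n) (Fin n) ℂ) : Continuous (psi X) := by
  unfold psi
  have h1 : Continuous fun P : Matrix (Fin n) (Fin n) ℂ => trace (P * DD X) :=
    Continuous.matrix_trace (Continuous.matrix_mul continuous_id continuous_const)
  have h2 : Continuous fun P : Matrix (Fin n) (Fin n) ℂ => trace (P * X) :=
    Continuous.matrix_trace (Continuous.matrix_mul continuous_id continuous_const)
  exact (Complex.continuous_re.comp h1).sub ((continuous_norm.comp h2).pow 2)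

theorem DD_shift (X : Matrix (Fin n) (Fin n) ℂ) (α : ℂ) :
    DD (X - α • (1 : Matrix (Fin n) (Fin n) ℂ)) =
      DD X - (2 * star α) • X - (2 * α) • Xᴴ
        + (2 * (star α * α)) • (1 : Matrix (Fin n) (Fin n) ℂ) := by
  simp only [DD, conjTranspose_sub, conjTranspose_smul, conjTranspose_one, sub_mul, mul_sub,
    smul_mul_assoc, mul_smul_comm, one_mul, mul_one]
  module

theorem first_order (X : Matrix (Fin n) (Fin n) ℂ) {Q : Matrix (Fin n) (Fin n) ℂ}
    (hQ : Q ∈ PP n) (hmax : ∀ P ∈ PP n, psi X P ≤ psi X Q) {P : Matrix (Fin n) (Fin n) ℂ}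
    (hP : P ∈ PP n) :
    (trace (P * DD (X - (trace (Q * X) / 2) • (1 : Matrix (Fin n) (Fin n) ℂ)))).re
      ≤ (trace (Q * DD (X - (trace (Q * X) / 2) • (1 : Matrix (Fin n) (Fin n) ℂ)))).re := by
  set z := trace (Q * X) with hz
  set w := trace ((P - Q) * X) with hw
  set A := (trace ((P - Q) * DD X)).re with hA
  have key : ∀ t : ℝ, 0 < t → t ≤ 1 → A - 2 * (star z * w).re ≤ t * ‖w‖ ^ 2 := by
    intro t h0 h1
    have h := hmax _ (convex_PP hP hQ h0.le h1)
    unfold psi at h
    rw [add_mul, add_mul, trace_add, trace_add, smul_mul_assoc, smul_mul_assoc, trace_smul,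
      trace_smul, ← hz, ← hw, Complex.add_re] at h
    simp only [smul_eq_mul, Complex.re_ofReal_mul] at h
    rw [← hA] at h
    have hn : ‖z + (t : ℂ) * w‖ ^ 2 = ‖z‖ ^ 2 + 2 * t * (star z * w).re + t ^ 2 * ‖w‖ ^ 2 := by
      rw [← Complex.normSq_eq_norm_sq, ← Complex.normSq_eq_norm_sq, ← Complex.normSq_eq_norm_sq]
      simp only [Complex.normSq_apply, Complex.add_re, Complex.add_im, Complex.star_def,
        Complex.mul_re, Complex.mul_im, Complex.conj_re, Complex.conj_im, Complex.ofReal_re,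
        Complex.ofReal_im]
      ring
    rw [hn] at h
    have h2 : t * (A - 2 * (star z * w).re) ≤ t * (t * ‖w‖ ^ 2) := by nlinarith
    exact le_of_mul_le_mul_left h2 h0
  have key2 : A - 2 * (star z * w).re ≤ 0 := by
    by_contra hcon
    push Not at hcon
    set a := A - 2 * (star z * w).re with ha
    have hw0 : 0 ≤ ‖w‖ ^ 2 := by positivity
    have := key (min 1 (a / (2 * (‖w‖ ^ 2 + 1)))) (lt_min one_pos (by positivity)) (min_le_left _ _)
    have h3 : min 1 (a / (2 * (‖w‖ ^ 2 + 1))) * ‖w‖ ^ 2 ≤ a / (2 * (‖w‖ ^ 2 + 1)) * ‖w‖ ^ 2 :=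
      mul_le_mul_of_nonneg_right (min_le_right _ _) hw0
    have h4 : a / (2 * (‖w‖ ^ 2 + 1)) * ‖w‖ ^ 2 < a := by
      rw [div_mul_eq_mul_div, div_lt_iff₀ (by positivity)]
      nlinarith
    linarith
  have hconj : trace ((P - Q) * Xᴴ) = star w := by
    have hPQ : (P - Q)ᴴ = P - Q := by
      rw [conjTranspose_sub, hP.1.eq, hQ.1.eq]
    have : ((P - Q) * X)ᴴ = Xᴴ * (P - Q) := by rw [conjTranspose_mul, hPQ]
    rw [hw, ← trace_conjTranspose, this, trace_mul_comm]
  have htr : trace (P - Q) = 0 := by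
    rw [trace_sub, hP.2.2.2, hQ.2.2.2, sub_self]
  have h5 : (trace ((P - Q) * DD (X - (z / 2) • (1 : Matrix (Fin n) (Fin n) ℂ)))).re ≤ 0 := by
    rw [DD_shift]
    have e : trace ((P - Q) * (DD X - (2 * star (z / 2)) • X - (2 * (z / 2)) • Xᴴ
        + (2 * (star (z / 2) * (z / 2))) • (1 : Matrix (Fin n) (Fin n) ℂ)))
        = trace ((P - Q) * DD X) - (2 * star (z / 2)) * w - (2 * (z / 2)) * star w := by
      rw [mul_add, mul_sub, mul_sub, mul_smul_comm, mul_smul_comm, mul_smul_comm, mul_one,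
        trace_add, trace_sub, trace_sub, trace_smul, trace_smul, trace_smul, htr, hconj, ← hw]
      simp
    rw [e, Complex.sub_re, Complex.sub_re, ← hA]
    have e2 : (2 * star (z / 2) * w).re + (2 * (z / 2) * star w).re = 2 * (star z * w).re := by
      simp only [Complex.star_def, map_div₀, Complex.mul_re, Complex.mul_im, Complex.conj_re,
        Complex.conj_im, Complex.div_ofNat_re, Complex.div_ofNat_im, Complex.re_ofNat,
        Complex.im_ofNat, map_ofNat]
      ring
    linarith
  have h6 : trace ((P - Q) * DD (X - (z / 2) • (1 : Matrix (Fin n) (Fin n) ℂ)))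
      = trace (P * DD (X - (z / 2) • (1 : Matrix (Fin n) (Fin n) ℂ)))
        - trace (Q * DD (X - (z / 2) • (1 : Matrix (Fin n) (Fin n) ℂ))) := by
    rw [sub_mul, trace_sub]
  rw [h6, Complex.sub_re] at h5
  linarith

theorem opt : S_OPT := by
  intro n X hn
  obtain ⟨Q, hQ, hmax⟩ := (isCompact_PP (n := n)).exists_isMaxOn (nonempty_PP hn)
    (cont_psi X).continuousOn
  have hmax' : ∀ P ∈ PP n, psi X P ≤ psi X Q := fun P hP => hmax hP
  set α : ℂ := trace (Q * X) / 2 with hα
  set B0 : Matrix (Fin n) (Fin n) ℂ := X - α • (1 : Matrix (Fin n) (Fin n) ℂ) with hB0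
  have hF : ∀ P ∈ PP n, (trace (P * DD B0)).re ≤ (trace (Q * DD B0)).re :=
    fun P hP => first_order X hQ hmax' hP
  have hDH : (DD B0).IsHermitian := by
    rw [IsHermitian, DD, conjTranspose_add, conjTranspose_mul, conjTranspose_mul,
      conjTranspose_conjTranspose]
  have hH : (DD B0 + Q).IsHermitian := hDH.add hQ.1
  set U : Matrix (Fin n) (Fin n) ℂ := (hH.eigenvectorUnitary : Matrix (Fin n) (Fin n) ℂ) with hU
  have hU1 : Uᴴ * U = 1 := by
    rw [← star_eq_conjTranspose]
    exact Unitary.coe_star_mul_self hH.eigenvectorUnitary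
  have hU2 : U * Uᴴ = 1 := by
    rw [← star_eq_conjTranspose]
    exact Unitary.coe_mul_star_self hH.eigenvectorUnitary
  have hspec : Uᴴ * (DD B0 + Q) * U = diagonal (fun i => (hH.eigenvalues i : ℂ)) := by
    have h := hH.spectral_theorem
    rw [Unitary.conjStarAlgAut_apply] at h
    rw [← star_eq_conjTranspose]
    conv_lhs => rw [h]
    have hU1' : star U * U = 1 := by rw [star_eq_conjTranspose]; exact hU1
    calc star U * (U * diagonal (RCLike.ofReal ∘ hH.eigenvalues) * star U) * U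
        = (star U * U) * diagonal (RCLike.ofReal ∘ hH.eigenvalues) * (star U * U) := by
          simp only [mul_assoc]
      _ = _ := by rw [hU1', one_mul, mul_one]; rfl
  set Q' : Matrix (Fin n) (Fin n) ℂ := Uᴴ * Q * U with hQ'
  set D' : Matrix (Fin n) (Fin n) ℂ := Uᴴ * DD B0 * U with hD'
  have hsum : D' + Q' = diagonal (fun i => (hH.eigenvalues i : ℂ)) := by
    rw [← hspec, mul_add, add_mul]
  have hQ'H : Q'.IsHermitian := by
    rw [IsHermitian, hQ', conjTranspose_mul, conjTranspose_mul, conjTranspose_conjTranspose,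
      hQ.1.eq, mul_assoc]
  set p : Fin n → ℝ := fun i => (Q' i i).re with hp
  have hpc : ∀ i, Q' i i = (p i : ℂ) := by
    intro i
    have h := hQ'H.apply i i
    rw [Complex.star_def] at h
    exact (Complex.conj_eq_iff_re.mp h).symm
  have hqf : ∀ i, p i = qf Q (U *ᵥ Pi.single i 1) := by
    intro i
    have h := qf_conj (Uᴴ) Q (Pi.single i 1)
    rw [conjTranspose_conjTranspose] at h
    rw [← h, qf_single]
  have hqf1 : ∀ i : Fin n, qf 1 (U *ᵥ Pi.single i 1) = 1 := by
    intro i
    have h := qf_conj (Uᴴ) 1 (Pi.single i 1)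
    rw [conjTranspose_conjTranspose, mul_one, hU1] at h
    rw [← h, qf_single]
    simp
  have hp0 : ∀ i, 0 ≤ p i := fun i => by rw [hqf]; exact hQ.2.1 _
  have hp1 : ∀ i, p i ≤ 1 := fun i => by
    have := hQ.2.2.1 (U *ᵥ Pi.single i 1)
    rw [hqf1] at this
    rw [hqf]; exact this
  have htrQ' : trace Q' = 2 := by
    rw [hQ', trace_mul_comm, ← mul_assoc, hU2, one_mul, hQ.2.2.2]
  have hpsum : ∑ i, p i = 2 := by
    have h : ((∑ i, p i : ℝ) : ℂ) = 2 := by
      rw [Complex.ofReal_sum, ← htrQ', trace]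
      exact Finset.sum_congr rfl fun i _ => by rw [diag_apply, hpc]
    exact_mod_cast h
  -- the first order condition in the new basis
  have hF2 : ∀ s : Fin n → ℝ, (∀ i, 0 ≤ s i) → (∀ i, s i ≤ 1) → ∑ i, s i = 2 →
      ∑ i, s i * (D' i i).re ≤ (trace (Q' * D')).re := by
    intro s h0 h1 h2
    have h := hF _ (diag_mem hU1 hU2 s h0 h1 h2)
    have e1 : trace (U * (diagonal fun i => (s i : ℂ)) * Uᴴ * DD B0)
        = trace ((diagonal fun i => (s i : ℂ)) * D') := by
      rw [hD', mul_assoc, mul_assoc, trace_mul_comm]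
      simp only [mul_assoc]
    have e2 : trace (Q' * D') = trace (Q * DD B0) := by
      rw [hQ', hD']
      calc trace (Uᴴ * Q * U * (Uᴴ * DD B0 * U)) = trace (Uᴴ * Q * (U * Uᴴ) * DD B0 * U) := by
            simp only [mul_assoc]
        _ = trace (Uᴴ * (Q * DD B0) * U) := by rw [hU2, mul_one]; simp only [mul_assoc]
        _ = _ := by rw [trace_mul_comm, ← mul_assoc, hU2, one_mul]
    rw [e1] at h
    rw [e2]
    refine le_trans (le_of_eq ?_) h
    rw [trace, Complex.re_sum]
    refine Finset.sum_congr rfl fun i _ => ?_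
    rw [diag_apply, diagonal_mul, Complex.re_ofReal_mul]
  have hDd : ∀ i, D' i i = (hH.eigenvalues i : ℂ) - (p i : ℂ) := by
    intro i
    have h := congrFun (congrFun hsum i) i
    rw [Matrix.add_apply, diagonal_apply_eq, hpc] at h
    rw [← h]; ring
  have hDo : ∀ i j, i ≠ j → D' i j = -Q' i j := by
    intro i j hij
    have h := congrFun (congrFun hsum i) j
    rw [Matrix.add_apply, diagonal_apply_ne _ hij] at h
    linear_combination h
  -- the matrix `Q'` is diagonal
  have htr2 : (trace (Q' * D')).re = ∑ i, p i * (D' i i).re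
      - ∑ i, ∑ j, (if i = j then 0 else ‖Q' i j‖ ^ 2) := by
    rw [trace, Complex.re_sum, ← Finset.sum_sub_distrib]
    refine Finset.sum_congr rfl fun i _ => ?_
    rw [diag_apply, mul_apply, Complex.re_sum]
    have hterm : ∀ j, (Q' i j * D' j i).re
        = (if i = j then p i * (D' i i).re else 0) - (if i = j then 0 else ‖Q' i j‖ ^ 2) := by
      intro j
      by_cases hij : i = j
      · subst hij
        simp [hpc]
      · rw [if_neg hij, if_neg hij, hDo j i (Ne.symm hij), ← hQ'H.apply j i, Complex.star_def,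
          mul_neg, Complex.mul_conj', Complex.neg_re]
        rw [← Complex.ofReal_pow, Complex.ofReal_re]
        ring
    rw [Finset.sum_congr rfl fun j _ => hterm j, Finset.sum_sub_distrib]
    simp
  have hoff : ∀ i j, i ≠ j → Q' i j = 0 := by
    have h := hF2 p hp0 hp1 hpsum
    rw [htr2] at h
    have hS : ∑ i, ∑ j, (if i = j then (0 : ℝ) else ‖Q' i j‖ ^ 2) ≤ 0 := by linarith
    have hnn : ∀ i j, 0 ≤ (if i = j then (0 : ℝ) else ‖Q' i j‖ ^ 2) := by
      intro i j; split_ifs <;> positivity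
    intro i j hij
    have h1 : (if i = j then (0 : ℝ) else ‖Q' i j‖ ^ 2) ≤
        ∑ i, ∑ j, (if i = j then (0 : ℝ) else ‖Q' i j‖ ^ 2) :=
      le_trans (Finset.single_le_sum (fun j _ => hnn i j) (Finset.mem_univ j))
        (Finset.single_le_sum (f := fun i => ∑ j, (if i = j then (0 : ℝ) else ‖Q' i j‖ ^ 2))
          (fun i _ => Finset.sum_nonneg fun j _ => hnn i j) (Finset.mem_univ i))
    rw [if_neg hij] at h1
    have h2 : ‖Q' i j‖ ^ 2 = 0 := le_antisymm (le_trans h1 hS) (by positivity)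
    exact norm_eq_zero.mp (pow_eq_zero_iff (two_ne_zero) |>.mp h2)
  set B : Matrix (Fin n) (Fin n) ℂ := Uᴴ * X * U - α • (1 : Matrix (Fin n) (Fin n) ℂ) with hB
  have hBB0 : B = Uᴴ * B0 * U := by
    rw [hB0, mul_sub, sub_mul, mul_smul_comm, mul_one, smul_mul_assoc, hU1]
  have hDDB : DD B = D' := by
    rw [hD', hBB0, DD, DD, conjTranspose_mul, conjTranspose_mul, conjTranspose_conjTranspose]
    calc Uᴴ * B0 * U * (Uᴴ * (B0ᴴ * U)) + Uᴴ * (B0ᴴ * U) * (Uᴴ * B0 * U)
        = Uᴴ * B0 * (U * Uᴴ) * B0ᴴ * U + Uᴴ * B0ᴴ * (U * Uᴴ) * B0 * U := by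
          simp only [mul_assoc]
      _ = _ := by
          rw [hU2]
          simp only [mul_one, mul_add, add_mul, mul_assoc]
  have hdg : ∀ i, dg B i = (D' i i).re := fun i => by rw [dg, hDDB]
  refine ⟨U, B, α, p, hU1, hU2, hB, hp0, hp1, hpsum, ?_, ?_, ?_⟩
  · -- `∑ p_i B_ii = tr (Q B0) = 0`
    have e1 : ∑ i, (p i : ℂ) * B i i = trace (Q' * B) := by
      rw [trace]
      refine Finset.sum_congr rfl fun i _ => ?_
      rw [diag_apply, mul_apply, Finset.sum_eq_single i, hpc]
      · intro j _ hj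
        rw [hoff i j (Ne.symm hj), zero_mul]
      · intro h; exact absurd (Finset.mem_univ i) h
    have e2 : trace (Q' * B) = trace (Q * B0) := by
      rw [hQ', hBB0]
      calc trace (Uᴴ * Q * U * (Uᴴ * B0 * U)) = trace (Uᴴ * Q * (U * Uᴴ) * B0 * U) := by
            simp only [mul_assoc]
        _ = trace (Uᴴ * (Q * B0) * U) := by rw [hU2, mul_one]; simp only [mul_assoc]
        _ = _ := by rw [trace_mul_comm, ← mul_assoc, hU2, one_mul]
    rw [e1, e2, hB0, mul_sub, trace_sub, mul_smul_comm, mul_one, trace_smul, hQ.2.2.2, hα]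
    simp
  · intro i j hij
    rw [hDDB, hDo i j hij, hoff i j hij, neg_zero]
  · intro i j hi hj
    rw [hdg, hdg]
    by_cases hij : i = j
    · rw [hij]
    set ε := min (1 - p i) (p j) with hε
    have hε0 : 0 < ε := lt_min (by linarith) hj
    have hε1 : ε ≤ 1 - p i := min_le_left _ _
    have hε2 : ε ≤ p j := min_le_right _ _
    have h := hF2 (fun k => p k + ε * ((if k = i then 1 else 0) - (if k = j then 1 else 0)))
      ?_ ?_ ?_
    · rw [htr2] at h
      have hz : ∑ i, ∑ j, (if i = j then (0 : ℝ) else ‖Q' i j‖ ^ 2) = 0 := by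
        refine Finset.sum_eq_zero fun a _ => Finset.sum_eq_zero fun b _ => ?_
        split_ifs with hab
        · rfl
        · rw [hoff a b hab]; simp
      rw [hz, sub_zero] at h
      have e : ∑ k, (p k + ε * ((if k = i then 1 else 0) - (if k = j then 1 else 0))) *
          (D' k k).re = ∑ k, p k * (D' k k).re + ε * ((D' i i).re - (D' j j).re) := by
        simp only [add_mul, Finset.sum_add_distrib, mul_assoc, sub_mul, ite_mul, one_mul, zero_mul]
        rw [← Finset.mul_sum, Finset.sum_sub_distrib]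
        simp
      rw [e] at h
      have : ε * ((D' i i).re - (D' j j).re) ≤ 0 := by linarith
      have := nonpos_of_mul_nonpos_right this hε0
      linarith
    · intro k
      have := hp0 k
      by_cases hki : k = i
      · subst hki
        rw [if_pos rfl, if_neg hij]; nlinarith
      · by_cases hkj : k = j
        · subst hkj
          rw [if_neg hki, if_pos rfl]; nlinarith
        · rw [if_neg hki, if_neg hkj]; linarith
    · intro k
      have := hp1 k
      by_cases hki : k = i
      · subst hki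
        rw [if_pos rfl, if_neg hij]; nlinarith
      · by_cases hkj : k = j
        · subst hkj
          rw [if_neg hki, if_pos rfl]; nlinarith
        · rw [if_neg hki, if_neg hkj]; linarith
    · rw [Finset.sum_add_distrib, hpsum, ← Finset.mul_sum, Finset.sum_sub_distrib]
      simp

end Pool.Agent.W359.LWOPT
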